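import Pool.Agent.Lib.MP_acafa7_al.F.IfaceC

/-! SPER: the fixed rainbow simplex (PaperF 7.1 (b)-(d)). -/

namespace MSG.F72

open Classical

section walks

variable {V : Type} {G : SimpleGraph V}

theorem isW_cons {x y : V} {l : List V} (h : IsW G x y l) : ∃ t, l = x :: t := by
  cases l with
  | nil => have := h.first; simp at this
  | cons a t =>
    have := h.first
    simp only [List.head?_cons, Option.some.injEq] at this
    exact ⟨t, by rw [this]⟩

theorem isW_ne {x y : V} {l : List V} (h : IsW G x y l) : l ≠ [] := by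
  obtain ⟨t, rfl⟩ := isW_cons h
  simp

theorem cat_assoc' (a b c : List V) (hb : b ≠ []) : cat (cat a b) c = cat a (cat b c) := by
  cases b with
  | nil => exact absurd rfl hb
  | cons x t => simp [cat]

theorem cat_single {x y : V} {l : List V} (h : IsW G x y l) : cat [x] l = l := by
  obtain ⟨t, rfl⟩ := isW_cons h
  rfl

theorem cat_last (l : List V) (x : V) : cat l [x] = l := by simp [cat]

theorem map_cat (f : V → V) (l m : List V) : (cat l m).map f = cat (l.map f) (m.map f) := by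
  simp [cat, List.map_tail]

theorem mem_cat' {l m : List V} {v : V} (h : v ∈ cat l m) : v ∈ l ∨ v ∈ m := by
  rcases List.mem_append.1 h with h | h
  · exact Or.inl h
  · exact Or.inr (List.mem_of_mem_tail h)

theorem isW_cat {x y z : V} {l m : List V} (h : IsW G x y l) (h' : IsW G y z m) :
    IsW G x z (cat l m) := by
  obtain ⟨t, rfl⟩ := isW_cons h'
  obtain ⟨s, rfl⟩ := isW_cons h
  cases t with
  | nil =>
    have hz : y = z := by
      have := h'.last
      simpa using this
    subst hz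
    simpa [cat] using h
  | cons w t =>
    have hc := h'.chain
    rw [List.isChain_cons_cons] at hc
    refine ⟨?_, rfl, ?_⟩
    · show ((x :: s) ++ (w :: t)).IsChain G.Adj
      rw [List.isChain_append]
      refine ⟨h.chain, hc.2, ?_⟩
      intro a ha b hb
      have h1 : a = y := by
        have := h.last
        rw [this] at ha
        simpa using ha.symm
      have h2 : b = w := by simpa using hb.symm
      rw [h1, h2]
      exact hc.1
    · show ((x :: s) ++ (w :: t)).getLast? = some z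
      have := h'.last
      rw [List.getLast?_cons_cons] at this
      rw [List.getLast?_append, this]
      rfl

theorem isW_map' {H : Type} [Group H] [MulAction H V] (hA : Aut G H) (z : H) {x y : V}
    {l : List V} (h : IsW G x y l) : IsW G (z • x) (z • y) (l.map (z • ·)) := by
  refine ⟨?_, ?_, ?_⟩
  · rw [List.isChain_map]
    refine h.chain.imp ?_
    intro a b hab
    exact (hA z a b).2 hab
  · rw [List.head?_map, h.first]
    rfl
  · rw [List.getLast?_map, h.last]
    rfl

theorem catN_isW {n : ℕ} {q : ℕ → V} {β : ℕ → List V}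
    (hβ : ∀ i, i < n → IsW G (q i) (q (i + 1)) (β i)) :
    ∀ i, i ≤ n → IsW G (q 0) (q i) (catN β (q 0) i) := by
  intro i
  induction i with
  | zero =>
    intro _
    exact ⟨by simp [catN], rfl, rfl⟩
  | succ i ih =>
    intro hi
    exact isW_cat (ih (by omega)) (hβ i (by omega))

theorem mem_catN_mono {β : ℕ → List V} {x v : V} {i : ℕ} (h : v ∈ catN β x i) :
    ∀ n, i ≤ n → v ∈ catN β x n := by
  intro n hn
  induction n, hn using Nat.le_induction with
  | base => exact h
  | succ n _ ih => exact List.mem_append_left _ ih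

end walks

section chains

variable {Y : Type}

/-- signed 01 count of one edge -/
def kap (lam : Y → ℕ) (P Q : Y) : ℤ :=
  if lam P = 0 ∧ lam Q = 1 then 1 else if lam P = 1 ∧ lam Q = 0 then -1 else 0

theorem kap_anti (lam : Y → ℕ) (P Q : Y) : kap lam Q P = -kap lam P Q := by
  unfold kap
  by_cases h1 : lam P = 0 ∧ lam Q = 1
  · have h2 : ¬ (lam Q = 0 ∧ lam P = 1) := by omega
    have h3 : lam Q = 1 ∧ lam P = 0 := by omega
    rw [if_pos h1, if_neg h2, if_pos h3]
  · by_cases h2 : lam P = 1 ∧ lam Q = 0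
    · have h3 : lam Q = 0 ∧ lam P = 1 := by omega
      rw [if_neg h1, if_pos h2, if_pos h3]
      norm_num
    · have h3 : ¬ (lam Q = 0 ∧ lam P = 1) := by omega
      have h4 : ¬ (lam Q = 1 ∧ lam P = 0) := by omega
      rw [if_neg h1, if_neg h2, if_neg h3, if_neg h4]
      norm_num

theorem kap_self (lam : Y → ℕ) (P : Y) : kap lam P P = 0 := by
  have := kap_anti lam P P
  omega

theorem kap_congr (lam : Y → ℕ) {P P' Q Q' : Y} (h : lam P = lam P') (h' : lam Q = lam Q') :
    kap lam P Q = kap lam P' Q' := by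
  unfold kap
  rw [h, h']

variable [Fintype Y]

/-- the 01 count of a 1-chain -/
noncomputable def s1 (lam : Y → ℕ) (ν : Ch1 Y) : ℤ := ∑ P, ∑ Q, ν P Q * kap lam P Q

/-- the rainbow sign -/
def eta (lam : Y → ℕ) (P Q R : Y) : ℤ := kap lam P Q + kap lam Q R - kap lam P R

/-- the rainbow count of a 2-chain -/
noncomputable def s2 (lam : Y → ℕ) (N : Ch2 Y) : ℤ := ∑ P, ∑ Q, ∑ R, N P Q R * eta lam P Q R

theorem s1_bd2 (lam c : Y → ℕ) (N : Ch2 Y) (hN : Inc2 c N) : s1 lam (bd2 c N) = s2 lam N := by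
  have h1 : s1 lam (bd2 c N) =
      ∑ P, ∑ Q, ∑ R, (N P Q R - N P R Q + N R P Q) * kap lam P Q := by
    unfold s1
    refine Finset.sum_congr rfl fun P _ => Finset.sum_congr rfl fun Q _ => ?_
    unfold bd2
    by_cases hc : c P < c Q
    · simp only [hc, if_true, Finset.sum_mul]
    · have h0 : ∀ R, (N P Q R - N P R Q + N R P Q) * kap lam P Q = 0 := by
        intro R
        rw [hN P Q R (by omega), hN P R Q (by omega), hN R P Q (by omega)]
        ring
      simp only [hc, if_false, zero_mul]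
      exact (Finset.sum_eq_zero fun R _ => h0 R).symm
  rw [h1]
  unfold s2 eta
  have e1 : ∑ P, ∑ Q, ∑ R, N P R Q * kap lam P Q = ∑ P, ∑ Q, ∑ R, N P Q R * kap lam P R := by
    refine Finset.sum_congr rfl fun P _ => ?_
    exact Finset.sum_comm
  have e2 : ∑ P, ∑ Q, ∑ R, N R P Q * kap lam P Q = ∑ P, ∑ Q, ∑ R, N P Q R * kap lam Q R := by
    calc ∑ P, ∑ Q, ∑ R, N R P Q * kap lam P Q = ∑ P, ∑ R, ∑ Q, N R P Q * kap lam P Q :=
          Finset.sum_congr rfl fun P _ => Finset.sum_comm
      _ = ∑ R, ∑ P, ∑ Q, N R P Q * kap lam P Q := Finset.sum_comm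
  have e3 : ∑ P, ∑ Q, ∑ R, (N P Q R - N P R Q + N R P Q) * kap lam P Q =
      ∑ P, ∑ Q, ∑ R, N P Q R * kap lam P Q - ∑ P, ∑ Q, ∑ R, N P R Q * kap lam P Q +
        ∑ P, ∑ Q, ∑ R, N R P Q * kap lam P Q := by
    simp only [add_mul, sub_mul, Finset.sum_add_distrib, Finset.sum_sub_distrib]
  rw [e3, e1, e2]
  simp only [mul_add, mul_sub, Finset.sum_add_distrib, Finset.sum_sub_distrib]
  ring

theorem sum_kr (u : Y) (f : Y → ℤ) : ∑ P, kr u P * f P = f u := by
  unfold kr
  rw [Finset.sum_eq_single u]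
  · simp
  · intro b _ hb
    rw [if_neg (fun h => hb h.symm)]
    ring
  · intro h
    exact absurd (Finset.mem_univ u) h

theorem s1_ed0 (lam c : Y → ℕ) (u v : Y) (h : u = v ∨ c u ≠ c v) :
    s1 lam (ed0 c u v) = kap lam u v := by
  let F : Y → Y → ℤ := fun P Q => if c P < c Q then kap lam P Q else 0
  have h1 : s1 lam (ed0 c u v) = F u v - F v u := by
    have e1 : ∑ P, ∑ Q, kr u P * (kr v Q * F P Q) = F u v := by
      have : ∀ P, ∑ Q, kr u P * (kr v Q * F P Q) = kr u P * F P v := by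
        intro P
        rw [← Finset.mul_sum, sum_kr v (fun Q => F P Q)]
      rw [Finset.sum_congr rfl fun P _ => this P, sum_kr u (fun P => F P v)]
    have e2 : ∑ P, ∑ Q, kr v P * (kr u Q * F P Q) = F v u := by
      have : ∀ P, ∑ Q, kr v P * (kr u Q * F P Q) = kr v P * F P u := by
        intro P
        rw [← Finset.mul_sum, sum_kr u (fun Q => F P Q)]
      rw [Finset.sum_congr rfl fun P _ => this P, sum_kr v (fun P => F P u)]
    rw [← e1, ← e2, ← Finset.sum_sub_distrib]
    unfold s1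
    refine Finset.sum_congr rfl fun P _ => ?_
    rw [← Finset.sum_sub_distrib]
    refine Finset.sum_congr rfl fun Q _ => ?_
    show ed0 c u v P Q * kap lam P Q = kr u P * (kr v Q * (if c P < c Q then kap lam P Q else 0)) -
      kr v P * (kr u Q * (if c P < c Q then kap lam P Q else 0))
    unfold ed0
    by_cases hc : c P < c Q
    · rw [if_pos hc, if_pos hc]
      ring
    · rw [if_neg hc, if_neg hc]
      ring
  rw [h1]
  show (if c u < c v then kap lam u v else 0) - (if c v < c u then kap lam v u else 0) =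
    kap lam u v
  rcases h with rfl | h
  · rw [kap_self]
    simp
  · rcases lt_or_gt_of_ne h with h | h
    · have h' : ¬ c v < c u := by omega
      rw [if_pos h, if_neg h']
      ring
    · have h' : ¬ c u < c v := by omega
      rw [if_neg h', if_pos h, kap_anti lam u v]
      ring

theorem s1_add (lam : Y → ℕ) (ν ν' : Ch1 Y) : s1 lam (ν + ν') = s1 lam ν + s1 lam ν' := by
  unfold s1
  simp only [Pi.add_apply, add_mul, Finset.sum_add_distrib]

theorem s1_zero (lam : Y → ℕ) : s1 lam (0 : Ch1 Y) = 0 := by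
  unfold s1
  simp

theorem cnt01_eq {V : Type} {G : SimpleGraph V} {H : Type} [Group H] [MulAction H V]
    [MulAction H Y] {S : Set V} {π : V → Y} {c : Y → ℕ} (hcm : CM G H S π c) (lam : Y → ℕ) :
    ∀ l : List V, l.IsChain G.Adj → (∀ v ∈ l, v ∈ S) →
      cnt01 (fun v => lam (π v)) l = s1 lam (edw π c l)
  | [], _, _ => by
    show (0 : ℤ) = s1 lam (0 : Ch1 Y)
    rw [s1_zero]
  | [x], _, _ => by
    show (0 : ℤ) = s1 lam (0 : Ch1 Y)
    rw [s1_zero]
  | x :: y :: l, hc, hS => by
    rw [List.isChain_cons_cons] at hc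
    have ih := cnt01_eq hcm lam (y :: l) hc.2 (fun v hv => hS v (List.mem_cons_of_mem _ hv))
    have hx : x ∈ S := hS x (by simp)
    have hy : y ∈ S := hS y (by simp)
    show (if lam (π x) = 0 ∧ lam (π y) = 1 then 1 else if lam (π x) = 1 ∧ lam (π y) = 0 then -1
      else 0) + cnt01 (fun v => lam (π v)) (y :: l) = s1 lam (ed0 c (π x) (π y) + edw π c (y :: l))
    rw [s1_add, s1_ed0 lam c _ _ (hcm.adj x hx y hy hc.1), ih]
    rfl

omit [Fintype Y] in
/-- the rainbow sign vanishes unless the labels are pairwise different -/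
theorem eta_ne (lam : Y → ℕ) {P Q R : Y} (h : eta lam P Q R ≠ 0) :
    lam P ≠ lam Q ∧ lam Q ≠ lam R ∧ lam P ≠ lam R := by
  refine ⟨fun e => h ?_, fun e => h ?_, fun e => h ?_⟩
  · unfold eta
    rw [kap_congr lam e rfl, kap_self, kap_congr lam e rfl]
    ring
  · unfold eta
    have a : kap lam Q R = kap lam R R := kap_congr lam e rfl
    have b : kap lam P R = kap lam P Q := kap_congr lam rfl e.symm
    rw [a, kap_self, b]
    ring
  · unfold eta
    rw [kap_congr lam e rfl, kap_congr lam e rfl, kap_self, kap_anti lam Q R]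
    ring

end chains

theorem sper_st (h1 : HAlgStatement) (h2 : PSumStatement) : SperStatement := by
  intro V G p hp H _ _ _ hA hpg z hz S Y _ _ π c hcm htk lam hlam hlam2 n q β α Sm Sk hq hα hβ hαw
    hSm hmSm hnul hsq hrb hcnt
  set m : ℕ → List V := fun i => catN β (q 0) i with hm
  have hn : n ≠ 0 := by
    rintro rfl
    have : cnt01 (fun v => lam (π v)) (catN β (q 0) 0) = 0 := rfl
    rw [this] at hcnt
    exact absurd hcnt (by norm_num)
  have hmW : ∀ i, i ≤ n → IsW G (q 0) (q i) (m i) := catN_isW hβ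
  have hmS : ∀ i, i ≤ n → ∀ v ∈ m i, v ∈ S := fun i hi v hv =>
    hSm (hmSm v (mem_catN_mono hv n hi))
  -- the chain of the polygon
  obtain ⟨N, hN⟩ := htk.ex Sm hSm _ _ hnul
  -- the chains of the squares
  have hex : ∀ i, ∃ e : Ch2 Y, i < n → HomA G (Sk i) (om π c) (cat (β i) (α (i + 1)))
      (cat (α i) ((β i).map (z • ·))) e := by
    intro i
    by_cases hi : i < n
    · obtain ⟨hsub, _, _, _, _, hh⟩ := hsq i hi
      obtain ⟨e, he⟩ := htk.ex (Sk i) hsub _ _ hh
      exact ⟨e, fun _ => he⟩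
    · exact ⟨0, fun h => absurd h hi⟩
  choose e he using hex
  obtain ⟨H1, _, _, _, H5, _, _, _, _, _, H11, H12⟩ := h1 V (Ch2 Y) G S (om π c)
  -- telescoping
  have htel : ∀ i, i ≤ n → HomA G S (om π c) (cat (m i) (α i))
      (cat (α 0) ((m i).map (z • ·))) (∑ j ∈ Finset.range i, e j) := by
    intro i
    induction i with
    | zero =>
      intro _
      have a1 : cat (m 0) (α 0) = α 0 := cat_single (hαw 0 (Nat.zero_le _))
      have a2 : cat (α 0) ((m 0).map (z • ·)) = α 0 := by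
        show cat (α 0) [z • q 0] = α 0
        exact cat_last _ _
      rw [a1, a2]
      simpa using HomA.refl (G := G) (S := S) (ω := om π c) (α 0)
    | succ i ih =>
      intro hi
      have ih' := ih (by omega)
      have hβi := hβ i (by omega)
      have hαi := hαw i (by omega)
      have hαi1 := hαw (i + 1) hi
      have hmi := hmW i (by omega)
      have hzβ := isW_map' hA z hβi
      have b1 : cat (m (i + 1)) (α (i + 1)) = cat (m i) (cat (β i) (α (i + 1))) :=
        cat_assoc' _ _ _ (isW_ne hβi)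
      have b2 : cat (m i) (cat (α i) ((β i).map (z • ·))) =
          cat (cat (m i) (α i)) ((β i).map (z • ·)) := (cat_assoc' _ _ _ (isW_ne hαi)).symm
      have b3 : cat (cat (α 0) ((m i).map (z • ·))) ((β i).map (z • ·)) =
          cat (α 0) ((m (i + 1)).map (z • ·)) := by
        rw [cat_assoc' _ _ _ (isW_ne (isW_map' hA z hmi))]
        show cat (α 0) (cat ((m i).map (z • ·)) ((β i).map (z • ·))) =
          cat (α 0) ((cat (m i) (β i)).map (z • ·))
        rw [map_cat]
      obtain ⟨hsub, _, _, _, _, _⟩ := hsq i (by omega)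
      have he' : HomA G S (om π c) (cat (β i) (α (i + 1))) (cat (α i) ((β i).map (z • ·))) (e i) :=
        (h1 V (Ch2 Y) G (Sk i) (om π c)).2.2.2.2.1 _ _ _ S hsub (he i (by omega))
      have c1 := H11 _ _ _ _ _ _ _ hmi (isW_cat hβi hαi1) he'
      have c2 := H12 _ _ _ _ _ _ _ (isW_cat hmi hαi) hzβ ih'
      rw [b2] at c1
      rw [b1, ← b3]
      have c3 := H1 _ _ _ _ _ c1 c2
      have c4 : ∑ j ∈ Finset.range (i + 1), e j = e i + ∑ j ∈ Finset.range i, e j := by
        rw [Finset.sum_range_succ]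
        exact add_comm _ _
      rw [c4]
      exact c3
  -- N - z N
  have hkey : N = ∑ j ∈ Finset.range n, e j + ac2 z N := by
    have hα0 := hαw 0 (Nat.zero_le _)
    have hmn := hmW n le_rfl
    have hmn' : IsW G (q 0) (q 0) (m n) := by rw [hq] at hmn; exact hmn
    have hNS : HomA G S (om π c) (m n) [q 0] N :=
      (h1 V (Ch2 Y) G Sm (om π c)).2.2.2.2.1 _ _ _ S hSm hN
    have d1 := H12 _ _ _ _ _ _ _ hmn' hα0 hNS
    rw [cat_single hα0] at d1
    -- translate
    have d2 := htk.eqv z Sm hSm _ _ _ hmSm hN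
    have hsub2 : {v | z⁻¹ • v ∈ Sm} ⊆ S := by
      intro v hv
      have := hcm.inv z _ (hSm hv)
      rwa [smul_inv_smul] at this
    have d3 : HomA G S (om π c) ((m n).map (z • ·)) [z • q 0] (ac2 z N) :=
      (h1 V (Ch2 Y) G {v | z⁻¹ • v ∈ Sm} (om π c)).2.2.2.2.1 _ _ _ S hsub2 d2
    have d4 := H11 _ _ _ _ _ _ _ hα0 (isW_map' hA z hmn') d3
    rw [cat_last] at d4
    have d5 := htel n le_rfl
    rw [hα] at d5
    have d6 := H1 _ _ _ _ _ d5 d4
    refine htk.uniq (q 0) (z • q 0) (cat (m n) (α 0)) (α 0) N _ (isW_cat hmn' hα0) ?_ d1 d6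
    intro v hv
    rcases mem_cat' hv with hv | hv
    · exact hmS n le_rfl v hv
    · obtain ⟨hsub, _, h3, _⟩ := hsq 0 (Nat.pos_of_ne_zero hn)
      exact hsub (h3 v hv)
  -- the squares do not meet rainbow simplices
  have hez : ∀ P Q R, lam P ≠ lam Q → lam Q ≠ lam R → lam P ≠ lam R →
      (∑ j ∈ Finset.range n, e j) P Q R = 0 := by
    intro P Q R hPQ hQR hPR
    have : (∑ j ∈ Finset.range n, e j) P Q R = ∑ j ∈ Finset.range n, e j P Q R := by
      simp only [Finset.sum_apply]
    rw [this]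
    refine Finset.sum_eq_zero fun j hj => ?_
    have hj' : j < n := Finset.mem_range.1 hj
    by_contra hne
    obtain ⟨hsub, hb1, ha1, ha2, hb2, _⟩ := hsq j hj'
    obtain ⟨x, hx, y, hy, w, hw, a1, a2, a3, hP, hQ, hR⟩ := htk.supp (Sk j) hsub _ _ _ (by
      intro v hv
      rcases mem_cat' hv with hv | hv
      · exact hb1 v hv
      · exact ha2 v hv) (he j hj') P Q R hne
    have := hrb j hj' x hx y hy w hw a1 a2 a3
    rw [hP, hQ, hR] at this
    rcases this with h | h | h
    · exact hPQ h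
    · exact hQR h
    · exact hPR h
  have hinv : ∀ P Q R, lam P ≠ lam Q → lam Q ≠ lam R → lam P ≠ lam R →
      N (z • P) (z • Q) (z • R) = N P Q R := by
    intro P Q R hPQ hQR hPR
    have h3 := congrFun (congrFun (congrFun hkey (z • P)) (z • Q)) (z • R)
    have h4 := hez (z • P) (z • Q) (z • R) (by rwa [hlam, hlam]) (by rwa [hlam, hlam])
      (by rwa [hlam, hlam])
    rw [h3]
    show (∑ j ∈ Finset.range n, e j) (z • P) (z • Q) (z • R) + ac2 z N (z • P) (z • Q) (z • R) = _
    rw [h4]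
    show 0 + N (z⁻¹ • z • P) (z⁻¹ • z • Q) (z⁻¹ • z • R) = N P Q R
    rw [inv_smul_smul, inv_smul_smul, inv_smul_smul, zero_add]
  -- the rainbow count of N is one
  have hs2 : s2 lam N = 1 := by
    obtain ⟨hb, hinc⟩ := htk.bd (q 0) (q n) (m n) [q 0] N (hmW n le_rfl) (hmS n le_rfl)
      ((h1 V (Ch2 Y) G Sm (om π c)).2.2.2.2.1 _ _ _ S hSm hN)
    have hb0 : edw π c [q 0] = (0 : Ch1 Y) := rfl
    rw [hb0, sub_zero] at hb
    rw [← s1_bd2 lam c N hinc, hb, ← cnt01_eq hcm lam (m n) (hmW n le_rfl).chain (hmS n le_rfl)]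
    exact hcnt
  -- counting modulo p
  let f : Y × Y × Y → ZMod p := fun t => ((N t.1 t.2.1 t.2.2 * eta lam t.1 t.2.1 t.2.2 : ℤ) : ZMod p)
  have hfz : ∀ t, f (z • t) = f t := by
    rintro ⟨P, Q, R⟩
    show ((N (z • P) (z • Q) (z • R) * eta lam (z • P) (z • Q) (z • R) : ℤ) : ZMod p) =
      ((N P Q R * eta lam P Q R : ℤ) : ZMod p)
    have he1 : eta lam (z • P) (z • Q) (z • R) = eta lam P Q R := by
      unfold eta
      rw [kap_congr lam (hlam z P) (hlam z Q), kap_congr lam (hlam z Q) (hlam z R),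
        kap_congr lam (hlam z P) (hlam z R)]
    rw [he1]
    by_cases h0 : eta lam P Q R = 0
    · rw [h0]
      simp
    · obtain ⟨i1, i2, i3⟩ := eta_ne lam h0
      rw [hinv P Q R i1 i2 i3]
  have hfH : ∀ (h : H) t, f (h • t) = f t := by
    let K : Subgroup H :=
      { carrier := {h | ∀ t, f (h • t) = f t}
        one_mem' := fun t => by rw [one_smul]
        mul_mem' := by
          intro a b ha hb t
          rw [mul_smul, ha, hb]
        inv_mem' := by
          intro a ha t
          have := ha (a⁻¹ • t)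
          rw [smul_inv_smul] at this
          exact this.symm }
    have hzK : z ∈ K := hfz
    intro h
    have : h ∈ K := by
      have h3 : Subgroup.zpowers z ≤ K := by
        rw [Subgroup.zpowers_le]
        exact hzK
      exact h3 (hz h)
    exact this
  have hsum : ∑ t : Y × Y × Y, f t = 1 := by
    have h3 : ∑ t : Y × Y × Y, f t = ((s2 lam N : ℤ) : ZMod p) := by
      unfold s2
      rw [Fintype.sum_prod_type, Int.cast_sum]
      refine Finset.sum_congr rfl fun P _ => ?_
      rw [Fintype.sum_prod_type, Int.cast_sum]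
      refine Finset.sum_congr rfl fun Q _ => ?_
      rw [Int.cast_sum]
    rw [h3, hs2]
    simp
  have hps := h2 p H (Y × Y × Y) hpg f hfH
  rw [hsum] at hps
  have hne0 : (∑ t ∈ Finset.univ.filter (fun t : Y × Y × Y => ∀ h : H, h • t = t), f t) ≠ 0 := by
    intro h0
    have h3 : (1 : ZMod p) = 0 := by
      rw [hps]
      convert h0
    exact one_ne_zero h3
  obtain ⟨⟨P, Q, R⟩, ht, hft⟩ := Finset.exists_ne_zero_of_sum_ne_zero hne0
  have hfix := (Finset.mem_filter.1 ht).2
  have hN0 : N P Q R ≠ 0 := by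
    intro h0
    apply hft
    show ((N P Q R * eta lam P Q R : ℤ) : ZMod p) = 0
    rw [h0]
    simp
  have he0 : eta lam P Q R ≠ 0 := by
    intro h0
    apply hft
    show ((N P Q R * eta lam P Q R : ℤ) : ZMod p) = 0
    rw [h0]
    simp
  obtain ⟨i1, i2, i3⟩ := eta_ne lam he0
  obtain ⟨x, hx, y, hy, w, hw, a1, a2, a3, hP, hQ, hR⟩ := htk.supp Sm hSm _ _ _ hmSm hN P Q R hN0
  have hfP : ∀ h : H, h • P = P := fun h => congrArg Prod.fst (hfix h)
  have hfQ : ∀ h : H, h • Q = Q := fun h => congrArg (fun t => t.2.1) (hfix h)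
  have hfR : ∀ h : H, h • R = R := fun h => congrArg (fun t => t.2.2) (hfix h)
  subst hP
  subst hQ
  subst hR
  have l1 := hlam2 (π x)
  have l2 := hlam2 (π y)
  have l3 := hlam2 (π w)
  have hcases : (lam (π x) = 0 ∧ lam (π y) = 1 ∧ lam (π w) = 2) ∨
      (lam (π x) = 0 ∧ lam (π y) = 2 ∧ lam (π w) = 1) ∨
      (lam (π x) = 1 ∧ lam (π y) = 0 ∧ lam (π w) = 2) ∨
      (lam (π x) = 1 ∧ lam (π y) = 2 ∧ lam (π w) = 0) ∨
      (lam (π x) = 2 ∧ lam (π y) = 0 ∧ lam (π w) = 1) ∨
      (lam (π x) = 2 ∧ lam (π y) = 1 ∧ lam (π w) = 0) := by omega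
  rcases hcases with ⟨j1, j2, j3⟩ | ⟨j1, j2, j3⟩ | ⟨j1, j2, j3⟩ | ⟨j1, j2, j3⟩ | ⟨j1, j2, j3⟩ |
    ⟨j1, j2, j3⟩
  · exact ⟨x, hx, y, hy, w, hw, a1, a2, a3, j1, j2, j3, fun h => ⟨hfP h, hfQ h, hfR h⟩⟩
  · exact ⟨x, hx, w, hw, y, hy, a3, a2.symm, a1, j1, j3, j2, fun h => ⟨hfP h, hfR h, hfQ h⟩⟩
  · exact ⟨y, hy, x, hx, w, hw, a1.symm, a3, a2, j2, j1, j3, fun h => ⟨hfQ h, hfP h, hfR h⟩⟩
  · exact ⟨w, hw, x, hx, y, hy, a3.symm, a1, a2.symm, j3, j1, j2,
      fun h => ⟨hfR h, hfP h, hfQ h⟩⟩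
  · exact ⟨y, hy, w, hw, x, hx, a2, a3.symm, a1.symm, j2, j3, j1,
      fun h => ⟨hfQ h, hfR h, hfP h⟩⟩
  · exact ⟨w, hw, y, hy, x, hx, a2.symm, a1.symm, a3.symm, j3, j2, j1,
      fun h => ⟨hfR h, hfQ h, hfP h⟩⟩

end MSG.F72
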