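import Pool.Agent.Lib.MP_acafa7_al.F.IfaceC

/-! VIT: the Vitali count of the bad parameters (PaperF 7.1 (e)). -/

namespace MSG.F72

open Classical

/-- Greedy disjoint subfamily, processed by decreasing radius. -/
theorem vit_greedy {T : Type} [Fintype T] (D : T → T → ℕ) (ρ : T → ℕ) (hxx : ∀ x, D x x = 0)
    (Bad : Finset T) :
    ∃ X ⊆ Bad, (∀ x ∈ X, ∀ y ∈ X, x ≠ y → ∀ w, D x w ≤ ρ x - 1 → ¬ D y w ≤ ρ y - 1) ∧
      ∀ x ∈ Bad, ∃ y ∈ X, ρ x ≤ ρ y ∧ ∃ w, D x w ≤ ρ x - 1 ∧ D y w ≤ ρ y - 1 := by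
  induction Bad using Finset.induction_on_min_value ρ with
  | empty => exact ⟨∅, Finset.Subset.refl _, by simp, by simp⟩
  | insert a s has hmin ih =>
    obtain ⟨X, hX, hdis, hcov⟩ := ih
    by_cases hm : ∃ y ∈ X, ∃ w, D a w ≤ ρ a - 1 ∧ D y w ≤ ρ y - 1
    · refine ⟨X, hX.trans (Finset.subset_insert _ _), hdis, ?_⟩
      intro x hx
      rcases Finset.mem_insert.1 hx with rfl | hx
      · obtain ⟨y, hy, w, hw⟩ := hm
        exact ⟨y, hy, hmin y (hX hy), w, hw⟩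
      · exact hcov x hx
    · push Not at hm
      refine ⟨insert a X, Finset.insert_subset_insert _ hX, ?_, ?_⟩
      · intro x hx y hy hxy w hxw hyw
        rcases Finset.mem_insert.1 hx with hxa | hx'
        · rcases Finset.mem_insert.1 hy with hya | hy'
          · exact hxy (hxa.trans hya.symm)
          · rw [hxa] at hxw
            have := hm y hy' w hxw
            omega
        · rcases Finset.mem_insert.1 hy with hya | hy'
          · rw [hya] at hyw
            have := hm x hx' w hyw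
            omega
          · exact hdis x hx' y hy' hxy w hxw hyw
      · intro x hx
        rcases Finset.mem_insert.1 hx with rfl | hx
        · exact ⟨x, Finset.mem_insert_self _ _, le_rfl, x, by rw [hxx]; exact Nat.zero_le _,
            by rw [hxx]; exact Nat.zero_le _⟩
        · obtain ⟨y, hy, h⟩ := hcov x hx
          exact ⟨y, Finset.mem_insert_of_mem hy, h⟩

theorem vit_st : VitStatement := by
  intro T _ D ρ τ r₀ hr hxx hsymm htri hlip hball W hW
  obtain ⟨X, hX, hdis, hcov⟩ := vit_greedy D ρ hxx (Finset.univ.filter (fun x => r₀ < ρ x))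
  have hXr : ∀ x ∈ X, r₀ < ρ x := fun x hx => (Finset.mem_filter.1 (hX hx)).2
  -- boxes
  let box : T → Finset (ℤ × ℤ) := fun x =>
    Finset.Icc ((τ x).1 - 12 * ρ x) ((τ x).1 + 12 * ρ x) ×ˢ
      Finset.Icc ((τ x).2 - 12 * ρ x) ((τ x).2 + 12 * ρ x)
  have hbox : ∀ x, (box x).card = (24 * ρ x + 1) ^ 2 := by
    intro x
    show (Finset.Icc _ _ ×ˢ Finset.Icc _ _).card = _
    rw [Finset.card_product, Int.card_Icc, Int.card_Icc]
    have h1 : ((τ x).1 + 12 * (ρ x : ℤ) + 1 - ((τ x).1 - 12 * (ρ x : ℤ))).toNat = 24 * ρ x + 1 := by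
      omega
    have h2 : ((τ x).2 + 12 * (ρ x : ℤ) + 1 - ((τ x).2 - 12 * (ρ x : ℤ))).toNat = 24 * ρ x + 1 := by
      omega
    rw [h1, h2]
    ring
  have hcover : W ⊆ X.biUnion box := by
    intro t ht
    obtain ⟨x, hx, h1, h2⟩ := hW t ht
    obtain ⟨y, hy, hρ, w, hw1, hw2⟩ := hcov x (Finset.mem_filter.2 ⟨Finset.mem_univ _, hx⟩)
    have hy0 := hXr y hy
    have hD : D x y ≤ 2 * (ρ y - 1) := by
      have a1 := htri x w y
      have a2 := hsymm w y
      omega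
    obtain ⟨l1, l2⟩ := hlip x y
    rw [abs_le] at h1 h2 l1 l2
    refine Finset.mem_biUnion.2 ⟨y, hy, ?_⟩
    show t ∈ Finset.Icc _ _ ×ˢ Finset.Icc _ _
    rw [Finset.mem_product, Finset.mem_Icc, Finset.mem_Icc]
    have hD' : (D x y : ℤ) ≤ 2 * ρ y - 2 := by omega
    have hρ' : (ρ x : ℤ) ≤ ρ y := by exact_mod_cast hρ
    refine ⟨⟨?_, ?_⟩, ⟨?_, ?_⟩⟩ <;> linarith [h1.1, h1.2, h2.1, h2.2, l1.1, l1.2, l2.1, l2.2]
  have hW1 : W.card ≤ ∑ x ∈ X, (24 * ρ x + 1) ^ 2 := by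
    calc W.card ≤ (X.biUnion box).card := Finset.card_le_card hcover
      _ ≤ ∑ x ∈ X, (box x).card := Finset.card_biUnion_le
      _ = ∑ x ∈ X, (24 * ρ x + 1) ^ 2 := Finset.sum_congr rfl (fun x _ => hbox x)
  let ball : T → Finset T := fun x => Finset.univ.filter (fun y => D x y ≤ ρ x - 1)
  have hsum : ∑ x ∈ X, (ball x).card ≤ Fintype.card T := by
    rw [← Finset.card_biUnion]
    · exact Finset.card_le_univ _
    · intro x hx y hy hxy
      show Disjoint (ball x) (ball y)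
      rw [Finset.disjoint_left]
      intro w hw1 hw2
      exact hdis x hx y hy hxy w (Finset.mem_filter.1 hw1).2 (Finset.mem_filter.1 hw2).2
  have hone : ∀ x ∈ X, r₀ * (24 * ρ x + 1) ^ 2 ≤ 96040 * (ball x).card := by
    intro x hx
    have h0 := hXr x hx
    have h1 : (ρ x - 1) ^ 3 < 40 * (ball x).card := hball x h0
    obtain ⟨m, hm⟩ : ∃ m, ρ x = m + 1 := ⟨ρ x - 1, by omega⟩
    rw [hm] at h1 ⊢
    rw [Nat.add_sub_cancel] at h1
    have hm0 : r₀ ≤ m := by omega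
    have hm1 : 1 ≤ m := by omega
    have h2 : 24 * (m + 1) + 1 ≤ 49 * m := by omega
    calc r₀ * (24 * (m + 1) + 1) ^ 2 ≤ m * (49 * m) ^ 2 :=
          Nat.mul_le_mul hm0 (Nat.pow_le_pow_left h2 2)
      _ = 2401 * m ^ 3 := by ring
      _ ≤ 2401 * (40 * (ball x).card) := Nat.mul_le_mul_left _ h1.le
      _ = 96040 * (ball x).card := by ring
  calc r₀ * W.card ≤ r₀ * ∑ x ∈ X, (24 * ρ x + 1) ^ 2 := Nat.mul_le_mul_left _ hW1
    _ = ∑ x ∈ X, r₀ * (24 * ρ x + 1) ^ 2 := Finset.mul_sum _ _ _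
    _ ≤ ∑ x ∈ X, 96040 * (ball x).card := Finset.sum_le_sum hone
    _ = 96040 * ∑ x ∈ X, (ball x).card := (Finset.mul_sum _ _ _).symm
    _ ≤ 96040 * Fintype.card T := Nat.mul_le_mul_left _ hsum
    _ ≤ 300000 * Fintype.card T := Nat.mul_le_mul_right _ (by norm_num)

end MSG.F72
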